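import Pool.Agent.R895.Abs

set_option autoImplicit false

/-!
# The nef cone conjecture for blow-ups of quotients of powers of an elliptic curve

Let `E = ℂ / ℤ[ω]` where `ω` is a primitive cube root of unity, let `μ_m`, `m ∣ 6`, act on `E^n` by
multiplication, and let `X` be the blow-up of `E^n / μ_m` in the image of `0`, with exceptional divisor
`P`. The divisor `K_X + (1 - n / m) P` is numerically trivial, and `(X, (1 - n / m) P)` is a klt
Calabi-Yau pair if `n ≤ m`; for `n = m = 3` the canonical class itself is numerically trivial. The
theorem says that for `2 ≤ n ≤ 4` the cone `Nef^e(X)` of nef and effective classes has a rational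
polyhedral fundamental domain for the action of `Aut(X)`. This is part (a) of the conjecture for
these pairs.

The proof: a class in `N^1(X)` is a pair `(H, b)` where `H` is a hermitian form on `ℂ^n` and `b` is
the coefficient of `-P`. Elliptic curves through `0` show that `0 ≤ b ≤ H(v, v)`, in a suitable
normalisation, for all nonzero vectors `v` in the lattice `ℤ[ω]^n`; that a section whose order of
vanishing at `0` is larger than `H(v, v)` vanishes on `ℂ v` is proved with Liouville's theorem and
the Weierstrass sigma function. For the converse we have to write multiples of `H` as sums of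
hermitian squares `|l_i|²` of integral linear functions, with at least `b` of them outside a given
proper sublattice, and then take products of sigma functions of the `l_i`. By duality this follows
from the inequality `min H ≤ tr (M H)` for positive semidefinite `M` which are at least `1` outside
a proper sublattice, and this inequality is proved by reduction theory in rank at most `4`. It
follows that the nef cone is the cone of all `(H, b)` with `0 ≤ b ≤ H(v, v)`, and that the effective
classes in it are spanned by the rational ones. Reduction theory for hermitian forms and Dickson's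
lemma for the values of the forms at lattice vectors show that it is covered by the translates of a
rational polyhedral cone.

`Lat`, `kum`, `BlBundle`, `IsClass`, `N1s`, `N1`, `integral`, `semiample`, `effective`, `nefCone`,
`effCone`, `Normalizes` and `IsPullback` are defined in `Pool.Agent.R895.Defs`; `IsEis` (Eisenstein
integers) in `Pool.Agent.R895.Eis`; `LinGrp`, `Preserves` and `IsFundDomain` in
`Pool.Agent.Y167.Stm`; `cone` in `Pool.Agent.Y167.ConeDef`.
-/

namespace Pool.Agent.Results.MP_ad47bb_ag.KummerBlowUps

open Pool.Agent.R895
open Pool.Agent.Y167 (cone)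
open Pool.Agent.Y167.CC (LinGrp Preserves IsFundDomain)

variable {n m : ℕ}

/-- The space `N^1(X)` for the blow-up `X` of `E^n / μ_m` in the image of `0`. -/
def NS (n m : ℕ) : Type := N1 (kum (Fin n) m) (LinearMap.id : (Fin n → ℂ) →ₗ[ℂ] (Fin n → ℂ))

noncomputable instance : AddCommGroup (NS n m) :=
  Submodule.addCommGroup (N1s (kum (Fin n) m) LinearMap.id)

noncomputable instance : Module ℝ (NS n m) :=
  Submodule.module (N1s (kum (Fin n) m) LinearMap.id)

noncomputable instance : TopologicalSpace (NS n m) :=
  instTopologicalSpaceSubtype (p := fun h => h ∈ N1s (kum (Fin n) m) LinearMap.id)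

/-- The integral classes in `N^1(X)`. -/
def intNS (n m : ℕ) : Set (NS n m) := integral (kum (Fin n) m) LinearMap.id

/-- The cone `Nef^e(X)` of nef and effective classes. -/
def nefEff (n m : ℕ) : Set (NS n m) :=
  nefCone (kum (Fin n) m) LinearMap.id ∩ effCone (kum (Fin n) m) LinearMap.id

/-- `g` is the pullback by an automorphism of `X` which is induced by a linear automorphism of
`ℂ^n`. -/
def IsLinPull (g : NS n m ≃ₗ[ℝ] NS n m) : Prop :=
  ∃ f : (Fin n → ℂ) ≃ₗ[ℂ] (Fin n → ℂ), Normalizes (kum (Fin n) m) f ∧
    IsPullback (Γ := kum (Fin n) m) (j := LinearMap.id) f g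

/-- `𝒢` is a group of linear automorphisms of `N^1(X)` which preserves the integral classes and the
cone of nef and effective classes, and which contains the pullbacks `f^*` by all automorphisms of `X`
which are induced by linear automorphisms `f` of `ℂ^n`. The image of `Aut(X)` has these properties,
and so does the image of `Aut(X, (1 - n / m) P)`. -/
structure IsAutGroup (𝒢 : LinGrp (NS n m)) : Prop where
  int : Preserves 𝒢 (intNS n m)
  nef_eff : Preserves 𝒢 (nefEff n m)
  lin : ∀ g, IsLinPull g → g ∈ 𝒢

/-- Let `X` be the blow-up of `E^n / μ_m` in the image of `0`, where `E = ℂ / ℤ[ω]`, `m ∣ 6` and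
`2 ≤ n ≤ 4`. There is a finite set `S` of integral classes such that the cone `Π` spanned by `S`
consists of nef effective classes and is a fundamental domain for the action of `𝒢` on the cone
`Nef^e(X)` of nef effective classes. -/
theorem result (n m : ℕ) (hn : 2 ≤ n ∧ n ≤ 4) (_hm : m ∣ 6) (𝒢 : LinGrp (NS n m))
    (h𝒢 : IsAutGroup 𝒢) :
    ∃ S : Finset (NS n m), ↑S ⊆ intNS n m ∧ cone S ⊆ nefEff n m ∧
      IsFundDomain 𝒢 (nefEff n m) (cone S) := by
  have hne : Nonempty (Fin n) := ⟨⟨0, by omega⟩⟩
  refine core (id_isExt n) Function.injective_id hn.1 hn.2 𝒢 h𝒢.int h𝒢.nef_eff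
    fun g u hg => ?_
  obtain ⟨f, hf1, -, hf3⟩ := isPb_mem (id_isExt n) Function.injective_id hg
  exact h𝒢.lin g ⟨f, hf1, hf3⟩

end Pool.Agent.Results.MP_ad47bb_ag.KummerBlowUps
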