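import Pool.Agent.R299.CDE.Main
import Pool.Agent.R299.CDE.Chamber
import Pool.Agent.R299.CDE.Face

/-!
# Both cone conjectures for finite quotients of products, their small modifications and contractions

Let `Y` be a `ℚ`-factorial projective klt variety with `K_Y ≡ 0`. By the decomposition theorem for
singular varieties (Greb-Kebekus-Peternell, Druel, Höring-Peternell) there is a finite quasi-étale
Galois covering `X → Y`, with a group `G`, where `X` is the product of an abelian variety and of
varieties `X i` which are irreducible symplectic or irreducible Calabi-Yau varieties with canonical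
singularities.

**Theorem.** If the nef and the movable cone conjecture hold for the factors of `X`, then both of them
hold for `Y`. If moreover the rational polyhedral cones in the effective movable cone of `Y` are
decomposed into finitely many cones of models (Shokurov, Kawamata, Birkar-Cascini-Hacon-McKernan), then
the nef cone conjecture holds for **every** `ℚ`-factorial small modification `Y'` of `Y`, and for
every birational contraction of every `Y'`. More generally, this is true for the quotients of the
products of klt Calabi-Yau pairs, all except one with `h^1(O) = 0`, by arbitrary finite groups of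
automorphisms, with the boundary given by the ramification.

They are known for abelian varieties (Prendergast-Smith), for `ℚ`-factorial irreducible symplectic
varieties with terminal or mild singularities and second Betti number at least five
(Lehn-Mongardi-Pacienza; smooth case: Markman, Amerik-Verbitsky) and for pairs of dimension two
(Totaro). So both parts of the conjecture hold for all quotients, by finite groups, of products of such
factors, in any dimension, and in general the conjecture for klt varieties with `K ≡ 0` is reduced to
the irreducible Calabi-Yau factors (if the product is `ℚ`-factorial).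

## The Lean statement

The theorem is about the cones of the varieties. In `Cones`, `int` are the integral classes in `N^1`,
`eff` are the effective classes, and `nef` is the nef cone for the cones `N i` of the `X i` and `M` of
`Y`; for the cones `P i` of the `X i` and `Q` of `Y` the closed cone `nef` is the closure of the movable
cone. `IsProjective` are the properties of these cones which hold for all projective varieties.
`Preserved` says that a group of linear maps, such as the images of `Aut(X)` and of `PsAut(X)` in
`GL(N^1(X))`, preserves the three of them. `N^1(X)` is the direct sum of the `N^1(X i)`, and a class is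
nef (movable, effective) if and only if its components are (`prodCones`). The groups `𝒜` and `𝒞` are the
images of `Aut(X)` and of `PsAut(X)`; they contain the products of elements of the images `𝒢 i`
of `Aut(X i)` and `ℋ i` of `PsAut(X i)`. The hypotheses of `IsFiniteQuotient` are the well known
relations between the cones of `X` and `Y = X / G` (norms of line bundles and of sections). The last of
them says that a subgroup of finite index in the centralizer of `G` in `𝒜` (in `𝒞`) consists of classes
of automorphisms (of pseudo-automorphisms) which commute with `G`, so that they come from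
automorphisms (pseudo-automorphisms) of `Y`. An element of the kernel of `PsAut(X) → GL(N^1(X))` fixes
an ample class, so it is an automorphism, and the kernel is an extension of a finite group by an
abelian variety `A`. Since `H^1(G, A)` is finite, there are, up to conjugation by `A`, only finitely many
homomorphisms from `G` to the group generated by `G` and the kernel which agree with the given one
modulo the kernel. `IsChamberSystem` are the properties of the set of the nef cones of all the small
modifications `Y'`, as subsets of the movable cone; `chamber` are the cones of `Y'`, `stab` is the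
group of the automorphisms of `Y'`. `IsContraction` are the relations between the cones of `Y'` and
those of the image of a contraction of `Y'`, whose nef cone is a face of the nef cone of `Y'`.

## The proof

Let `Π` be a rational polyhedral cone whose translates cover the interior of the cone of `X`. By the
*Siegel property* (Looijenga; here with a short proof from Dickson's lemma) `γ Π ∩ Π` meets the
interior only for finitely many automorphisms `γ` of the lattice and the cone. Let `x` be an interior
class fixed by `G`, and `γ x` in `Π`. Then the elements `γ g γ⁻¹`, for `g` in `G`, fix the point `γ x`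
of `Π`, so they belong to a finite set. Hence `γ` belongs to one of finitely many cosets
`r (𝒜 ∩ C(G))`, and `x` is a translate, by an element which commutes with `G`, of a point of one of the
finitely many cones `r⁻¹ Π`. The sum over `G` maps these cones to rational polyhedral cones in the
space fixed by `G`.
-/

set_option autoImplicit false

namespace Pool.Agent.Results.MP_ad47bb_ag.NefAndMovableQuotients

open Pool.Agent.R299.CDE

/-- **Both cone conjectures for finite quotients of products, and the nef cone conjecture for the
contractions of their small modifications.** -/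
theorem result {ι : Type} [Fintype ι] {W : ι → Type} [∀ i, NormedAddCommGroup (W i)]
    [∀ i, NormedSpace ℝ (W i)]
    -- the factors `X i`, nef cones `N i` and movable cones `P i`
    (N P : ∀ i, Cones (W i)) (hN : ∀ i, (N i).IsProjective) (hP : ∀ i, (P i).IsProjective)
    (𝒢 ℋ : ∀ i, LinGrp (W i))
    (hconjN : ∀ i, (N i).ConeConjecture (𝒢 i)) (hconjP : ∀ i, (P i).ConeConjecture (ℋ i))
    -- the product `X` of the `X i`
    (𝒜 𝒞 : LinGrp (∀ i, W i)) (h𝒜 : (prodCones N).Preserved 𝒜) (h𝒞 : (prodCones P).Preserved 𝒞)
    (hprodN : ∀ γ : ∀ i, W i ≃ₗ[ℝ] W i, (∀ i, γ i ∈ 𝒢 i) → LinearEquiv.piCongrRight γ ∈ 𝒜)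
    (hprodP : ∀ γ : ∀ i, W i ≃ₗ[ℝ] W i, (∀ i, γ i ∈ ℋ i) → LinearEquiv.piCongrRight γ ∈ 𝒞)
    -- the quotient `Y = X / G`, nef cone `M` and movable cone `Q`
    {V : Type} [NormedAddCommGroup V] [NormedSpace ℝ V] (M Q : Cones V) (hM : M.IsProjective)
    (hQ : Q.IsProjective) (ℬ 𝒟 : LinGrp V) (hℬ : M.Preserved ℬ) (h𝒟 : Q.Preserved 𝒟)
    (G : LinGrp (∀ i, W i)) (q : V →ₗ[ℝ] ∀ i, W i)
    (hqN : IsFiniteQuotient (prodCones N) 𝒜 G q M ℬ)
    (hqP : IsFiniteQuotient (prodCones P) 𝒞 G q Q 𝒟) :
    (M.ConeConjecture ℬ ∧ M.nefEff = M.nefPlus) ∧
      (Q.ConeConjecture 𝒟 ∧ Q.nefEff = Q.nefPlus) ∧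
      -- the small modifications `Y'` of `Y` and their contractions
      ∀ 𝒦 : Set (Set V), IsChamberSystem Q 𝒟 𝒦 → ∀ κ ∈ 𝒦,
        ((Q.chamber κ).ConeConjecture (stab 𝒟 κ) ∧
          (Q.chamber κ).nefEff = (Q.chamber κ).nefPlus) ∧
        ∀ {U : Type} [NormedAddCommGroup U] [NormedSpace ℝ U] (M' : Cones U) (ℬ' : LinGrp U)
          (j : U →ₗ[ℝ] V), M'.IsProjective → M'.Preserved ℬ' →
            IsContraction (Q.chamber κ) (stab 𝒟 κ) j M' ℬ' →
              M'.ConeConjecture ℬ' ∧ M'.nefEff = M'.nefPlus := by
  obtain ⟨F, hF, hcov⟩ := prod_cover hN 𝒢 hconjN 𝒜 hprodN
  obtain ⟨F', hF', hcov'⟩ := prod_cover hP ℋ hconjP 𝒞 hprodP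
  have h1 := quotient_main (prod_projective hN) h𝒜 F hF hcov hM hℬ hqN
  have h2 := quotient_main (prod_projective hP) h𝒞 F' hF' hcov' hQ h𝒟 hqP
  refine ⟨h1, h2, fun 𝒦 h𝒦 κ hκ => ?_⟩
  have h3 := (chamber_main hQ h𝒟 h2.1 h2.2 h𝒦).2 κ hκ
  refine ⟨h3, fun M' ℬ' j hM' hℬ' hj => ?_⟩
  have h4 : (Q.chamber κ).Preserved (stab 𝒟 κ) := by
    rintro g ⟨hg, hg2⟩
    refine ⟨(h𝒟 g hg).1, fun x hx => ?_, (h𝒟 g hg).2.2⟩
    have : g x ∈ g '' κ := ⟨x, hx, rfl⟩
    rw [hg2] at this
    exact this
  exact contraction_main (h𝒦.projective κ hκ) h4 h3.1 hM' hℬ' hj

end Pool.Agent.Results.MP_ad47bb_ag.NefAndMovableQuotients
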