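import Pool.Agent.R895.Mov

set_option autoImplicit false

/-!
# The movable cone conjecture for pairs on quotients of complex tori by finite groups

Let `X = V / Γ` be a projective quotient of a complex torus (an abelian variety) by any finite group,
of any dimension. The group may contain reflections, so that `K_X` need not be trivial. Let `Δ` be an
effective divisor with real coefficients on `X` such that `K_X + Δ` is numerically trivial. The theorem
says that the cone `Mov^e(X)` of effective classes in the closed movable cone has a rational polyhedral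
fundamental domain for the action of `PsAut(X, Δ)`, and also for the action of `PsAut(X)`.

The proof: sections of line bundles on `X` are theta functions, and the Chern form of an effective
line bundle is positive semidefinite. A semidefinite rational invariant form is the class of a base
point free line bundle. Hence the movable effective classes are the nef effective classes, and the
theorem follows from reduction theory for invariant hermitian forms
(`Pool.Agent.Y167.CC.core_int`).

`IsMovable` and `movCone` are defined in `Pool.Agent.R895.Mov`; `latt`, `IsTorusQuotient` and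
`LineBundle` in `Pool.Agent.W594.SYZ.Defs2`; `IsChernForm` and `IsPositiveForm` in
`Pool.Agent.W594.SYZ.TQDefs`; `IsRamification` and `IsLogPluricanonical` in
`Pool.Agent.TH735.AQ.MirDefs`; `AffGrp`, `EffDiv`, `NumTrivial` and `Normalizes` in
`Pool.Agent.Y167.Defs`; `LinGrp`, `Preserves`, `IsFundDomain`, `N1`, `integral`, `effCone` and
`IsPullback` in `Pool.Agent.Y167.Stm`; `cone` in `Pool.Agent.Y167.ConeDef`. In the absolute case the
linear subspace `E` of `V` of the general definitions is `V` itself, embedded by the identity map.
-/

namespace Pool.Agent.Results.MP_ad47bb_ag.TorusPairsMovable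

open Pool.Agent.W594.SYZ2 Pool.Agent.TH735.AQ
open Pool.Agent.Y167 (AffGrp EffDiv NumTrivial Normalizes cone rel_abs)
open Pool.Agent.Y167.CC
open Pool.Agent.R895.TMov

/-- The space `N^1(X)`. -/
abbrev NS {V : Type*} [NormedAddCommGroup V] [NormedSpace ℂ V] (Γ : AffGrp V) : Type _ :=
  N1 Γ (LinearMap.id : V →ₗ[ℂ] V)

/-- The effective movable cone `Mov^e(X)`. -/
def movEff {V : Type*} [NormedAddCommGroup V] [NormedSpace ℂ V] (Γ : AffGrp V) : Set (NS Γ) :=
  movCone Γ LinearMap.id ∩ effCone Γ LinearMap.id

/-- `𝒢` is a group of linear automorphisms of `N^1(X)` which preserves the integral classes and the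
effective movable cone, and which contains the pullbacks `f^*` by all automorphisms of `X` which are
induced by affine transformations `f` of `V` and map `Δ` to itself. The images of `PsAut(X)` and of
`PsAut(X, Δ)` have these properties. -/
structure IsPsAutGroup {V : Type*} [NormedAddCommGroup V] [NormedSpace ℂ V] {Γ : AffGrp V}
    {ι : Type*} [Fintype ι] (Δ : EffDiv Γ ι) (𝒢 : LinGrp (NS Γ)) : Prop where
  int : Preserves 𝒢 (integral Γ LinearMap.id)
  mov_eff : Preserves 𝒢 (movEff Γ)
  aff : ∀ f : V ≃ᵃ[ℂ] V, Normalizes Γ f → (∀ v, Δ.mul (f v) = Δ.mul v) →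
    ∀ g, IsPullback f g → g ∈ 𝒢

/-- Let `X = V / Γ` be a projective torus quotient and `Δ` an effective divisor with real coefficients
on `X` such that `K_X + Δ` is numerically trivial. There is a finite set `S` of integral classes such
that the cone `Π'` spanned by `S` is contained in the effective movable cone `Mov^e(X)` and is a
fundamental domain for the action of `𝒢` on `Mov^e(X)`. -/
theorem result {V : Type*} [NormedAddCommGroup V] [NormedSpace ℂ V] [FiniteDimensional ℂ V]
    (Γ : AffGrp V) (hΓ : IsTorusQuotient Γ)
    (hproj : ∃ (L : LineBundle Γ) (H : V → V → ℂ), IsChernForm L H ∧ IsPositiveForm H)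
    {ι : Type*} [Fintype ι] (Δ : EffDiv Γ ι) (hΔ : NumTrivial Δ (LinearMap.id : V →ₗ[ℂ] V))
    (𝒢 : LinGrp (NS Γ)) (h𝒢 : IsPsAutGroup Δ 𝒢) :
    ∃ S : Finset (NS Γ), ↑S ⊆ integral Γ LinearMap.id ∧ cone S ⊆ movEff Γ ∧
      IsFundDomain 𝒢 (movEff Γ) (cone S) := by
  obtain ⟨L, H, hc, hp⟩ := hproj
  exact mov_pairs (rel_abs hΓ hc hp) Δ hΔ 𝒢 h𝒢.int h𝒢.mov_eff
    (fun f hf _ hf3 g hg => h𝒢.aff f hf hf3 g hg)

end Pool.Agent.Results.MP_ad47bb_ag.TorusPairsMovable
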